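import Pool.Agent.H143.RelRoot

/-!
# Upper bounds for the smallest rank and order of a matroid with a reliability root outside of the
unit disk

There is a matroid of order 13 and rank 10 with such a root: `r_min ≤ 10` and `m_min ≤ 13`.
-/

set_option autoImplicit false

namespace Pool.Agent.Results.MP_a27c8d_co.SmallerMatroid

open Pool.Agent.H143.RelRoot

/-- There is a matroid with 13 elements and rank 10 whose reliability polynomial has a complex root
of modulus greater than 1. -/
theorem result : ∃ M : Matroid (Fin 13), M.E = Set.univ ∧ M.eRank = 10 ∧
    ∃ z : ℂ, 1 < ‖z‖ ∧ (relPoly M).IsRoot z :=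
  main

end Pool.Agent.Results.MP_a27c8d_co.SmallerMatroid
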